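import Mathlib.Analysis.Normed.Ring.InfiniteSum
import Mathlib.Analysis.Normed.Group.Tannery
import Mathlib.Analysis.SpecificLimits.Basic
import Mathlib.Analysis.Complex.Basic
import Mathlib.Data.ZMod.Basic
import Mathlib.Algebra.BigOperators.Finsupp.Basic
import Mathlib.Data.Finsupp.Basic

/-!
# A weak*-closed ideal of a measure algebra that is not finitely generated

The group is the direct sum `G` of countably many copies of `ℤ / 2` with the discrete topology, so
that `M(G) = ℓ¹(G)`.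
-/

set_option autoImplicit false
set_option linter.unusedSectionVars false

namespace Pool.Agent.Results.MP_6afee3_an.NotFinGen

open Filter Topology

/-! ### Definitions -/

section Defs

variable {G : Type} [AddCommGroup G]

/-- `f` is an element of `M(G) = ℓ¹(G)`, `G` being discrete. -/
def IsM (f : G → ℂ) : Prop := Summable fun s => ‖f s‖

/-- The convolution product. -/
noncomputable def conv (f g : G → ℂ) (s : G) : ℂ := ∑' t, f t * g (s - t)

/-- `J` is a left ideal of `M(G)`. -/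
def IsLeftIdeal (J : Set (G → ℂ)) : Prop :=
  (∀ f ∈ J, IsM f) ∧ 0 ∈ J ∧ (∀ f ∈ J, ∀ g ∈ J, f + g ∈ J) ∧
    ∀ f, IsM f → ∀ g ∈ J, conv f g ∈ J

/-- The set `J` of elements of `M(G)` is closed for the topology `σ(M(G), C₀(G))`: each element
of `M(G)` outside `J` has a basic neighbourhood, given by finitely many `φ i ∈ C₀(G)` and `ε`,
which is disjoint from `J`. -/
def WeakStarClosed (J : Set (G → ℂ)) : Prop :=
  ∀ f, IsM f → f ∉ J → ∃ (n : ℕ) (φ : Fin n → G → ℂ) (ε : ℝ), 0 < ε ∧
    (∀ i, Tendsto (φ i) cofinite (𝓝 0)) ∧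
    ∀ g, IsM g → (∀ i, ‖(∑' s, g s * φ i s) - ∑' s, f s * φ i s‖ < ε) → g ∉ J

/-- `J` is finitely generated as a left ideal. -/
def FinGen (J : Set (G → ℂ)) : Prop :=
  ∃ (n : ℕ) (μ : Fin n → G → ℂ), (∀ i, μ i ∈ J) ∧
    ∀ f ∈ J, ∃ ν : Fin n → G → ℂ, (∀ i, IsM (ν i)) ∧ f = ∑ i, conv (ν i) (μ i)

end Defs

/-! ### General facts on convolution -/

section General

variable {G : Type} [AddCommGroup G]

theorem summable_conv {f g : G → ℂ} (hf : IsM f) (hg : IsM g) (s : G) :
    Summable fun t => f t * g (s - t) := by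
  have h := summable_mul_of_summable_norm hf hg
  have hinj : Function.Injective fun t : G => (t, s - t) := fun a b hab =>
    congrArg Prod.fst hab
  have h2 := h.comp_injective hinj
  exact h2

/-- The reindexing `(s, t) ↦ (t, s - t)`. -/
def reidx : G × G ≃ G × G where
  toFun p := (p.2, p.1 - p.2)
  invFun p := (p.1 + p.2, p.1)
  left_inv p := by simp
  right_inv p := by simp

theorem summable_reidx {f g : G → ℂ} (hf : IsM f) (hg : IsM g) :
    Summable fun p : G × G => ‖f p.2 * g (p.1 - p.2)‖ := by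
  have h : Summable fun p : G × G => ‖f p.1 * g p.2‖ := by
    have := Summable.mul_of_nonneg hf hg (fun _ => norm_nonneg _) (fun _ => norm_nonneg _)
    refine this.congr fun p => ?_
    rw [norm_mul]
  exact (reidx.summable_iff (f := fun p : G × G => ‖f p.1 * g p.2‖)).2 h

theorem isM_conv {f g : G → ℂ} (hf : IsM f) (hg : IsM g) : IsM (conv f g) := by
  have h := summable_reidx hf hg
  have h1 := h.prod
  refine Summable.of_nonneg_of_le (fun _ => norm_nonneg _) (fun s => ?_) h1
  exact norm_tsum_le_tsum_norm (h.prod_factor s)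

theorem isM_add {f g : G → ℂ} (hf : IsM f) (hg : IsM g) : IsM (f + g) :=
  Summable.of_nonneg_of_le (fun _ => norm_nonneg _) (fun s => norm_add_le (f s) (g s))
    (Summable.add hf hg)

theorem isM_translate {f : G → ℂ} (hf : IsM f) (v : G) : IsM fun s => f (s + v) := by
  have h := (Equiv.addRight v).summable_iff (f := fun s => ‖f s‖)
  exact h.2 hf

end General

/-! ### The group -/

/-- The direct sum of countably many copies of `ℤ / 2`. -/
abbrev GG : Type := ℕ →₀ ZMod 2

/-- The generators. -/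
noncomputable def u (i : ℕ) : GG := Finsupp.single i 1

theorem u_add_u (i : ℕ) : u i + u i = 0 := by
  rw [u, ← Finsupp.single_add]
  have : (1 : ZMod 2) + 1 = 0 := by decide
  rw [this, Finsupp.single_zero]

/-- The operator `f ↦ (f + c f(· + u)) / 2`. -/
noncomputable def PQ (c : ℂ) (v : GG) (f : GG → ℂ) (s : GG) : ℂ := (f s + c * f (s + v)) / 2

/-- Convolution with the projection onto the functions on the dual group supported where the first
`k` coordinates are trivial. -/
noncomputable def AA : ℕ → (GG → ℂ) → GG → ℂ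
  | 0, f => f
  | k + 1, f => PQ 1 (u k) (AA k f)

/-- Convolution with the idempotent `e k`. -/
noncomputable def EE (k : ℕ) (f : GG → ℂ) : GG → ℂ := PQ (-1) (u k) (AA k f)

theorem PQ_comm (c d : ℂ) (v w : GG) (f : GG → ℂ) : PQ c v (PQ d w f) = PQ d w (PQ c v f) := by
  funext s
  simp only [PQ]
  rw [show s + v + w = s + w + v by abel]
  ring

theorem PQ_opp (v : GG) (hv : v + v = 0) (f : GG → ℂ) : PQ (-1) v (PQ 1 v f) = 0 := by
  funext s
  simp only [PQ, Pi.zero_apply]
  rw [add_assoc, hv, add_zero]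
  ring

theorem PQ_AA (c : ℂ) (v : GG) (k : ℕ) (f : GG → ℂ) : PQ c v (AA k f) = AA k (PQ c v f) := by
  induction k with
  | zero => rfl
  | succ k ih =>
    change PQ c v (PQ 1 (u k) (AA k f)) = PQ 1 (u k) (AA k (PQ c v f))
    rw [PQ_comm, ih]

theorem AA_AA (j k : ℕ) (f : GG → ℂ) : AA j (AA k f) = AA k (AA j f) := by
  induction j with
  | zero => rfl
  | succ j ih =>
    change PQ 1 (u j) (AA j (AA k f)) = AA k (PQ 1 (u j) (AA j f))
    rw [ih, PQ_AA]

theorem PQ_zero (c : ℂ) (v : GG) : PQ c v 0 = 0 := by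
  funext s
  simp [PQ]

theorem AA_zero (k : ℕ) : AA k 0 = 0 := by
  induction k with
  | zero => rfl
  | succ k ih =>
    change PQ 1 (u k) (AA k 0) = 0
    rw [ih, PQ_zero]

/-- `AA k` contains the factor with `u j` for `j < k`. -/
theorem PQ_AA_eq_zero {j k : ℕ} (h : j < k) (f : GG → ℂ) : PQ (-1) (u j) (AA k f) = 0 := by
  induction k with
  | zero => omega
  | succ k ih =>
    change PQ (-1) (u j) (PQ 1 (u k) (AA k f)) = 0
    rcases Nat.lt_or_ge j k with hjk | hjk
    · rw [PQ_comm, ih hjk, PQ_zero]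
    · have : j = k := by omega
      rw [this, PQ_opp _ (u_add_u k)]

theorem EE_EE_eq_zero {j k : ℕ} (h : j ≠ k) (f : GG → ℂ) : EE j (EE k f) = 0 := by
  rcases Nat.lt_or_gt_of_ne h with hjk | hjk
  · -- the factor `u j` occurs in `AA k`
    have h1 : EE j (EE k f) = AA j (PQ (-1) (u k) (PQ (-1) (u j) (AA k f))) := by
      unfold EE
      rw [PQ_AA, PQ_comm]
    rw [h1, PQ_AA_eq_zero hjk, PQ_zero, AA_zero]
  · have h1 : EE j (EE k f) = PQ (-1) (u j) (AA k (PQ (-1) (u k) (AA j f))) := by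
      unfold EE
      rw [← PQ_AA, AA_AA, PQ_AA]
    rw [h1, PQ_AA_eq_zero hjk, AA_zero, PQ_zero]

/-! ### Stability properties of the operators -/

theorem isM_PQ {c : ℂ} (hc : ‖c‖ = 1) (v : GG) {f : GG → ℂ} (hf : IsM f) : IsM (PQ c v f) ∧
    ∑' s, ‖PQ c v f s‖ ≤ ∑' s, ‖f s‖ := by
  have h1 := isM_translate hf v
  have hle : ∀ s, ‖PQ c v f s‖ ≤ (‖f s‖ + ‖f (s + v)‖) / 2 := by
    intro s
    simp only [PQ]
    rw [norm_div, Complex.norm_ofNat]
    refine div_le_div_of_nonneg_right ?_ (by norm_num)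
    refine (norm_add_le _ _).trans ?_
    rw [norm_mul, hc, one_mul]
  have hs : Summable fun s => (‖f s‖ + ‖f (s + v)‖) / 2 := (Summable.add hf h1).div_const 2
  have hM : IsM (PQ c v f) := Summable.of_nonneg_of_le (fun _ => norm_nonneg _) hle hs
  refine ⟨hM, ?_⟩
  refine (Summable.tsum_le_tsum hle hM hs).trans (le_of_eq ?_)
  rw [tsum_div_const, Summable.tsum_add hf h1]
  have : ∑' s, ‖f (s + v)‖ = ∑' s, ‖f s‖ := (Equiv.addRight v).tsum_eq fun s => ‖f s‖
  rw [this]
  ring

theorem isM_AA (k : ℕ) {f : GG → ℂ} (hf : IsM f) : IsM (AA k f) ∧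
    ∑' s, ‖AA k f s‖ ≤ ∑' s, ‖f s‖ := by
  induction k with
  | zero => exact ⟨hf, le_rfl⟩
  | succ k ih =>
    obtain ⟨h1, h2⟩ := isM_PQ (c := 1) (by simp) (u k) ih.1
    exact ⟨h1, h2.trans ih.2⟩

theorem isM_EE (k : ℕ) {f : GG → ℂ} (hf : IsM f) : IsM (EE k f) ∧
    ∑' s, ‖EE k f s‖ ≤ ∑' s, ‖f s‖ := by
  obtain ⟨h1, h2⟩ := isM_AA k hf
  obtain ⟨h3, h4⟩ := isM_PQ (c := -1) (by simp) (u k) h1
  exact ⟨h3, h4.trans h2⟩

theorem conv_PQ (c : ℂ) (v : GG) {f g : GG → ℂ} (hf : IsM f) (hg : IsM g) :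
    PQ c v (conv f g) = conv f (PQ c v g) := by
  funext s
  simp only [PQ, conv]
  have h1 := summable_conv hf hg s
  have h2 : Summable fun t => f t * g (s - t + v) := by
    have := summable_conv hf hg (s + v)
    refine this.congr fun t => ?_
    rw [show s + v - t = s - t + v by abel]
  have h3 : ∑' t, f t * g (s + v - t) = ∑' t, f t * g (s - t + v) :=
    tsum_congr fun t => by rw [show s + v - t = s - t + v by abel]
  rw [h3, ← tsum_mul_left, ← Summable.tsum_add h1 (h2.mul_left c), ← tsum_div_const]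
  exact tsum_congr fun t => by ring

theorem conv_AA (k : ℕ) {f g : GG → ℂ} (hf : IsM f) (hg : IsM g) :
    AA k (conv f g) = conv f (AA k g) := by
  induction k with
  | zero => rfl
  | succ k ih =>
    change PQ 1 (u k) (AA k (conv f g)) = conv f (PQ 1 (u k) (AA k g))
    rw [ih, conv_PQ 1 (u k) hf (isM_AA k hg).1]

theorem conv_EE (k : ℕ) {f g : GG → ℂ} (hf : IsM f) (hg : IsM g) :
    EE k (conv f g) = conv f (EE k g) := by
  unfold EE
  rw [conv_AA k hf hg, conv_PQ (-1) (u k) hf (isM_AA k hg).1]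

/-- The value of `EE k f` at a point is a finite combination of values of `f`. -/
theorem exists_rep_PQ {F : (GG → ℂ) → GG → ℂ}
    (hF : ∀ s, ∃ φ : GG →₀ ℂ, ∀ f, F f s = φ.sum fun t a => a * f t) (c : ℂ) (v s : GG) :
    ∃ φ : GG →₀ ℂ, ∀ f, PQ c v (F f) s = φ.sum fun t a => a * f t := by
  obtain ⟨φ₁, h₁⟩ := hF s
  obtain ⟨φ₂, h₂⟩ := hF (s + v)
  refine ⟨(1 / 2 : ℂ) • (φ₁ + c • φ₂), fun f => ?_⟩
  rw [Finsupp.sum_smul_index (fun t => by simp), Finsupp.sum_add_index' (fun t => by simp)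
    (fun t a b => by ring)]
  rw [Finsupp.sum_smul_index (fun t => by simp)]
  simp only [PQ]
  rw [h₁, h₂]
  simp only [Finsupp.sum, mul_assoc, ← Finset.mul_sum]
  ring

theorem exists_rep (k : ℕ) (s : GG) :
    ∃ φ : GG →₀ ℂ, ∀ f, EE k f s = φ.sum fun t a => a * f t := by
  have h : ∀ k s, ∃ φ : GG →₀ ℂ, ∀ f, AA k f s = φ.sum fun t a => a * f t := by
    intro k
    induction k with
    | zero =>
      intro s
      exact ⟨Finsupp.single s 1, fun f => by simp [AA]⟩
    | succ k ih => exact fun s => exists_rep_PQ ih 1 (u k) s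
  exact exists_rep_PQ (h k) (-1) (u k) s

/-! ### Characters -/

/-- The nontrivial character of `ℤ / 2`. -/
noncomputable def sgn (a : ZMod 2) : ℂ := if a = 0 then 1 else -1

theorem sgn_add (a b : ZMod 2) : sgn (a + b) = sgn a * sgn b := by
  have h01 : ∀ a : ZMod 2, a = 0 ∨ a = 1 := by decide
  have h1 : (1 : ZMod 2) ≠ 0 := by decide
  have h2 : (1 : ZMod 2) + 1 = 0 := by decide
  rcases h01 a with rfl | rfl <;> rcases h01 b with rfl | rfl
  · simp [sgn]
  · simp [sgn]
  · simp [sgn]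
  · rw [h2]
    simp [sgn, h1]

theorem norm_sgn (a : ZMod 2) : ‖sgn a‖ = 1 := by
  unfold sgn
  split_ifs <;> simp

/-- The `k`-th coordinate character. -/
noncomputable def chi (k : ℕ) (s : GG) : ℂ := sgn (s k)

theorem chi_add (k : ℕ) (s t : GG) : chi k (s + t) = chi k s * chi k t := by
  rw [chi, Finsupp.add_apply, sgn_add]
  rfl

theorem norm_chi (k : ℕ) (s : GG) : ‖chi k s‖ = 1 := norm_sgn _

theorem chi_u (k i : ℕ) : chi k (u i) = if i = k then -1 else 1 := by
  rw [chi, u, Finsupp.single_apply]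
  split_ifs with h
  · have : (1 : ZMod 2) ≠ 0 := by decide
    simp [sgn, this]
  · simp [sgn]

/-- The Fourier transform at the character `chi k`. -/
noncomputable def hat (k : ℕ) (f : GG → ℂ) : ℂ := ∑' s, f s * chi k s

theorem summable_hat (k : ℕ) {f : GG → ℂ} (hf : IsM f) : Summable fun s => f s * chi k s := by
  refine Summable.of_norm ?_
  refine hf.congr fun s => ?_
  rw [norm_mul, norm_chi, mul_one]

theorem norm_hat_le (k : ℕ) {f : GG → ℂ} (hf : IsM f) : ‖hat k f‖ ≤ ∑' s, ‖f s‖ := by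
  have h : (fun s => ‖f s * chi k s‖) = fun s => ‖f s‖ := by
    funext s
    rw [norm_mul, norm_chi, mul_one]
  have h1 : Summable fun s => ‖f s * chi k s‖ := by
    rw [h]
    exact hf
  refine (norm_tsum_le_tsum_norm h1).trans (le_of_eq ?_)
  rw [h]

theorem hat_translate (k i : ℕ) (f : GG → ℂ) :
    ∑' s, f (s + u i) * chi k s = chi k (u i) * hat k f := by
  have h1 : ∀ s, f (s + u i) * chi k s = (fun t => f t * chi k (t + u i)) (s + u i) := by
    intro s
    change _ = f (s + u i) * chi k (s + u i + u i)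
    rw [add_assoc s, u_add_u, add_zero]
  simp_rw [h1]
  have h2 := (Equiv.addRight (u i)).tsum_eq fun t => f t * chi k (t + u i)
  refine h2.trans ?_
  rw [hat, ← tsum_mul_left]
  refine tsum_congr fun t => ?_
  rw [chi_add]
  ring

theorem hat_PQ (c : ℂ) (k i : ℕ) {f : GG → ℂ} (hf : IsM f) :
    hat k (PQ c (u i) f) = (1 + c * chi k (u i)) / 2 * hat k f := by
  have h1 := summable_hat k hf
  have h2 : Summable fun s => f (s + u i) * chi k s := by
    refine Summable.of_norm ?_
    refine (isM_translate hf (u i)).congr fun s => ?_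
    rw [norm_mul, norm_chi, mul_one]
  have h3 : hat k (PQ c (u i) f) = ∑' s, (1 / 2 * (f s * chi k s) +
      c / 2 * (f (s + u i) * chi k s)) := by
    refine tsum_congr fun s => ?_
    simp only [PQ]
    ring
  rw [h3, Summable.tsum_add (h1.mul_left _) (h2.mul_left _), tsum_mul_left, tsum_mul_left,
    hat_translate]
  change 1 / 2 * hat k f + _ = _
  ring

theorem hat_conv (k : ℕ) {f g : GG → ℂ} (hf : IsM f) (hg : IsM g) :
    hat k (conv f g) = hat k f * hat k g := by
  have hf' : Summable fun s => ‖f s * chi k s‖ := by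
    refine hf.congr fun s => ?_
    rw [norm_mul, norm_chi, mul_one]
  have hg' : Summable fun s => ‖g s * chi k s‖ := by
    refine hg.congr fun s => ?_
    rw [norm_mul, norm_chi, mul_one]
  have h1 : hat k f * hat k g = ∑' p : GG × GG, (f p.1 * chi k p.1) * (g p.2 * chi k p.2) :=
    tsum_mul_tsum_of_summable_norm hf' hg'
  have h2 := reidx.tsum_eq fun p : GG × GG => (f p.1 * chi k p.1) * (g p.2 * chi k p.2)
  have h3 : Summable fun p : GG × GG => (f p.2 * chi k p.2) *
      (g (p.1 - p.2) * chi k (p.1 - p.2)) := by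
    refine Summable.of_norm ?_
    refine (summable_reidx hf hg).congr fun p => ?_
    simp only [norm_mul, norm_chi, mul_one]
  rw [h1, ← h2]
  change _ = ∑' p : GG × GG, (f p.2 * chi k p.2) * (g (p.1 - p.2) * chi k (p.1 - p.2))
  rw [h3.tsum_prod]
  refine tsum_congr fun s => ?_
  rw [conv, ← tsum_mul_right]
  refine tsum_congr fun t => ?_
  have h4 : chi k s = chi k (s - t) * chi k t := by rw [← chi_add, sub_add_cancel]
  rw [h4]
  ring

theorem hat_AA {k n : ℕ} (h : n ≤ k) {f : GG → ℂ} (hf : IsM f) : hat k (AA n f) = hat k f := by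
  induction n with
  | zero => rfl
  | succ n ih =>
    change hat k (PQ 1 (u n) (AA n f)) = hat k f
    rw [hat_PQ 1 k n (isM_AA n hf).1, ih (by omega), chi_u, if_neg (by omega)]
    ring

theorem hat_EE_self (k : ℕ) {f : GG → ℂ} (hf : IsM f) : hat k (EE k f) = hat k f := by
  unfold EE
  rw [hat_PQ (-1) k k (isM_AA k hf).1, hat_AA le_rfl hf, chi_u, if_pos rfl]
  ring

/-- The Fourier transforms at the coordinate characters converge to the one at the trivial
character. -/
theorem tendsto_hat {f : GG → ℂ} (hf : IsM f) :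
    Tendsto (fun k => hat k f) atTop (𝓝 (∑' s, f s)) := by
  refine tendsto_tsum_of_dominated_convergence (bound := fun s => ‖f s‖) hf ?_ ?_
  · intro s
    refine tendsto_const_nhds.congr' ?_
    filter_upwards [eventually_gt_atTop (s.support.sup id)] with k hk
    have h1 : s k = 0 := by
      by_contra h
      have h2 : k ≤ s.support.sup id :=
        Finset.le_sup (f := id) (Finsupp.mem_support_iff.2 h)
      omega
    rw [chi, h1]
    simp [sgn]
  · refine Eventually.of_forall fun k s => ?_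
    rw [norm_mul, norm_chi, mul_one]

/-! ### The ideal -/

/-- The ideal: the elements annihilated by the idempotents `e k`, `k` even. -/
def JJ : Set (GG → ℂ) := {f | IsM f ∧ ∀ k, Even k → EE k f = 0}

theorem isM_zero : IsM (0 : GG → ℂ) := by
  have : (fun s : GG => ‖(0 : GG → ℂ) s‖) = fun _ => 0 := by
    funext s
    simp
  unfold IsM
  rw [this]
  exact summable_zero

theorem EE_zero (k : ℕ) : EE k 0 = 0 := by
  unfold EE
  rw [AA_zero, PQ_zero]

theorem conv_zero {f : GG → ℂ} : conv f 0 = 0 := by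
  funext s
  simp [conv]

theorem EE_add (k : ℕ) (f g : GG → ℂ) : EE k (f + g) = EE k f + EE k g := by
  funext s
  obtain ⟨φ, hφ⟩ := exists_rep k s
  rw [Pi.add_apply, hφ, hφ, hφ, ← Finsupp.sum_add]
  refine Finsupp.sum_congr fun t _ => ?_
  rw [Pi.add_apply]
  ring

theorem isLeftIdeal_JJ : IsLeftIdeal JJ := by
  refine ⟨fun f hf => hf.1, ⟨isM_zero, fun k _ => EE_zero k⟩, ?_, ?_⟩
  · intro f hf g hg
    refine ⟨isM_add hf.1 hg.1, fun k hk => ?_⟩
    rw [EE_add, hf.2 k hk, hg.2 k hk, add_zero]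
  · intro f hf g hg
    refine ⟨isM_conv hf hg.1, fun k hk => ?_⟩
    rw [conv_EE k hf hg.1, hg.2 k hk, conv_zero]

theorem weakStarClosed_JJ : WeakStarClosed JJ := by
  intro f hf hfJ
  have h1 : ∃ k, Even k ∧ ∃ s, EE k f s ≠ 0 := by
    by_contra hcon
    push Not at hcon
    exact hfJ ⟨hf, fun k hk => funext fun s => hcon k hk s⟩
  obtain ⟨k, hk, s, hs⟩ := h1
  obtain ⟨φ, hφ⟩ := exists_rep k s
  have hpair : ∀ g : GG → ℂ, ∑' t, g t * φ t = EE k g s := by
    intro g
    rw [hφ, Finsupp.sum, tsum_eq_sum (s := φ.support)]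
    · exact Finset.sum_congr rfl fun t _ => mul_comm _ _
    · intro t ht
      rw [Finsupp.notMem_support_iff.1 ht, mul_zero]
  refine ⟨1, fun _ => φ, ‖EE k f s‖, norm_pos_iff.2 hs, fun _ => ?_, ?_⟩
  · refine tendsto_const_nhds.congr' ?_
    have : ∀ᶠ t in cofinite, t ∉ (φ.support : Set GG) := φ.support.finite_toSet.eventually_cofinite_notMem
    filter_upwards [this] with t ht
    exact (Finsupp.notMem_support_iff.1 ht).symm
  · intro g _ hg hgJ
    have h2 := hg 0
    rw [hpair, hpair, hgJ.2 k hk, Pi.zero_apply, zero_sub, norm_neg] at h2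
    exact lt_irrefl _ h2

/-- The unit. -/
noncomputable def dl : GG → ℂ := fun s => if s = 0 then 1 else 0

theorem isM_dl : IsM dl := by
  refine summable_of_ne_finset_zero (s := {0}) fun s hs => ?_
  rw [Finset.mem_singleton] at hs
  simp [dl, hs]

theorem tsum_norm_dl : ∑' s, ‖dl s‖ = 1 := by
  rw [tsum_eq_single 0]
  · simp [dl]
  · intro s hs
    simp [dl, hs]

theorem hat_dl (k : ℕ) : hat k dl = 1 := by
  rw [hat, tsum_eq_single 0]
  · simp [dl, chi, sgn]
  · intro s hs
    simp [dl, hs]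

/-- The idempotents. -/
noncomputable def ee (k : ℕ) : GG → ℂ := EE k dl

theorem isM_ee (k : ℕ) : IsM (ee k) := (isM_EE k isM_dl).1

theorem tsum_norm_ee_le (k : ℕ) : ∑' s, ‖ee k s‖ ≤ 1 := by
  rw [← tsum_norm_dl]
  exact (isM_EE k isM_dl).2

theorem hat_ee_self (k : ℕ) : hat k (ee k) = 1 := by
  rw [ee, hat_EE_self k isM_dl, hat_dl]

theorem hat_ee_ne {j k : ℕ} (h : j ≠ k) : hat k (ee j) = 0 := by
  rw [← hat_EE_self k (isM_ee j), ee, EE_EE_eq_zero h.symm]
  simp [hat]

/-- The Fourier transforms of elements of the ideal tend to zero. -/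
theorem tendsto_hat_JJ {f : GG → ℂ} (hf : f ∈ JJ) : Tendsto (fun k => hat k f) atTop (𝓝 0) := by
  have h1 := tendsto_hat hf.1
  have h2 : Tendsto (fun n : ℕ => hat (2 * n) f) atTop (𝓝 (∑' s, f s)) :=
    h1.comp (tendsto_id.const_mul_atTop' (by norm_num))
  have h3 : ∀ n : ℕ, hat (2 * n) f = 0 := by
    intro n
    rw [← hat_EE_self (2 * n) hf.1, hf.2 (2 * n) (even_two_mul n)]
    simp [hat]
  have h4 : ∑' s, f s = 0 := by
    refine tendsto_nhds_unique h2 ?_
    simp_rw [h3]
    exact tendsto_const_nhds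
  rwa [h4] at h1

theorem not_finGen_JJ : ¬ FinGen JJ := by
  rintro ⟨n, μ, hμ, hgen⟩
  -- the odd characters at which the generators are small
  have hF : Tendsto (fun m : ℕ => ∑ i, ‖hat (2 * m + 1) (μ i)‖) atTop (𝓝 0) := by
    have h1 : Tendsto (fun k : ℕ => ∑ i, ‖hat k (μ i)‖) atTop (𝓝 (∑ _i : Fin n, (0 : ℝ))) := by
      refine tendsto_finsetSum _ fun i _ => ?_
      have := (tendsto_hat_JJ (hμ i)).norm
      rwa [norm_zero] at this
    rw [Finset.sum_const_zero] at h1
    have h2 : Tendsto (fun m : ℕ => 2 * m + 1) atTop atTop :=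
      tendsto_atTop_mono (fun m => by change m ≤ 2 * m + 1; omega) tendsto_id
    exact h1.comp h2
  obtain ⟨ψ, hψ, hψF⟩ := extraction_forall_of_eventually (P := fun l m : ℕ =>
    ∑ i, ‖hat (2 * m + 1) (μ i)‖ ≤ (1 / 4 : ℝ) ^ l) (fun l => by
      filter_upwards [hF.eventually (gt_mem_nhds (show (0 : ℝ) < (1 / 4) ^ l by positivity))]
        with m hm
      exact hm.le)
  obtain ⟨κ, hκdef⟩ : ∃ κ : ℕ → ℕ, ∀ l, κ l = 2 * ψ l + 1 := ⟨fun l => 2 * ψ l + 1, fun _ => rfl⟩
  have hκ : Function.Injective κ := fun a b hab => hψ.injective (by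
    rw [hκdef, hκdef] at hab
    omega)
  have hκF : ∀ l, ∑ i, ‖hat (κ l) (μ i)‖ ≤ (1 / 4 : ℝ) ^ l := by
    intro l
    rw [hκdef]
    exact hψF l
  -- the element with slow decay
  have hsum : Summable fun p : ℕ × GG => ‖(1 / 2 : ℂ) ^ p.1 * ee (κ p.1) p.2‖ := by
    rw [summable_prod_of_nonneg fun _ => norm_nonneg _]
    constructor
    · intro l
      have := (isM_ee (κ l)).mul_left ‖(1 / 2 : ℂ) ^ l‖
      refine this.congr fun s => ?_
      rw [norm_mul]
    · refine Summable.of_nonneg_of_le (fun _ => tsum_nonneg fun _ => norm_nonneg _) (fun l => ?_)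
        (summable_geometric_of_lt_one (show (0 : ℝ) ≤ 1 / 2 by norm_num) (by norm_num))
      simp only [norm_mul, norm_pow]
      rw [tsum_mul_left]
      have h1 : ‖(1 / 2 : ℂ)‖ = 1 / 2 := by simp
      rw [h1]
      exact mul_le_of_le_one_right (by positivity) (tsum_norm_ee_le _)
  let h : GG → ℂ := fun s => ∑' l, (1 / 2 : ℂ) ^ l * ee (κ l) s
  have hsum' : Summable fun p : GG × ℕ => ‖(1 / 2 : ℂ) ^ p.2 * ee (κ p.2) p.1‖ :=
    (Equiv.prodComm GG ℕ).summable_iff (f := fun p : ℕ × GG =>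
      ‖(1 / 2 : ℂ) ^ p.1 * ee (κ p.1) p.2‖) |>.2 hsum
  have hM : IsM h := by
    refine Summable.of_nonneg_of_le (fun _ => norm_nonneg _) (fun s => ?_) hsum'.prod
    exact norm_tsum_le_tsum_norm (hsum'.prod_factor s)
  have hpt : ∀ s, Summable fun l : ℕ => (1 / 2 : ℂ) ^ l * ee (κ l) s := fun s =>
    Summable.of_norm (hsum'.prod_factor s)
  have hJ : h ∈ JJ := by
    refine ⟨hM, fun k hk => ?_⟩
    funext s
    obtain ⟨φ, hφ⟩ := exists_rep k s
    rw [hφ, Finsupp.sum]
    have h1 : ∀ t, φ t * h t = ∑' l, φ t * ((1 / 2 : ℂ) ^ l * ee (κ l) t) := fun t =>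
      tsum_mul_left.symm
    simp_rw [h1]
    rw [← Summable.tsum_finsetSum fun t _ => (hpt t).mul_left _]
    have h2 : ∀ l, ∑ t ∈ φ.support, φ t * ((1 / 2 : ℂ) ^ l * ee (κ l) t) = 0 := by
      intro l
      have h3 : EE k (ee (κ l)) s = 0 := by
        rw [ee, EE_EE_eq_zero (by
          rintro rfl
          have : Odd (κ l) := ⟨ψ l, hκdef l⟩
          exact (Nat.not_even_iff_odd.2 this) hk)]
        rfl
      rw [hφ, Finsupp.sum] at h3
      calc ∑ t ∈ φ.support, φ t * ((1 / 2 : ℂ) ^ l * ee (κ l) t)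
          = (1 / 2 : ℂ) ^ l * ∑ t ∈ φ.support, φ t * ee (κ l) t := by
            rw [Finset.mul_sum]
            exact Finset.sum_congr rfl fun t _ => by ring
        _ = 0 := by rw [h3, mul_zero]
    simp_rw [h2]
    exact tsum_zero
  have hhat : ∀ m, hat (κ m) h = (1 / 2 : ℂ) ^ m := by
    intro m
    have h1 : Summable fun p : GG × ℕ => (1 / 2 : ℂ) ^ p.2 * ee (κ p.2) p.1 * chi (κ m) p.1 := by
      refine Summable.of_norm ?_
      refine hsum'.congr fun p => ?_
      rw [norm_mul _ (chi (κ m) p.1), norm_chi, mul_one]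
    have h2 : hat (κ m) h = ∑' s, ∑' l, (1 / 2 : ℂ) ^ l * ee (κ l) s * chi (κ m) s := by
      refine tsum_congr fun s => ?_
      rw [tsum_mul_right]
    have h1' : Summable (Function.uncurry fun (s : GG) (l : ℕ) =>
        (1 / 2 : ℂ) ^ l * ee (κ l) s * chi (κ m) s) := h1
    have h2' := Summable.tsum_comm h1'
    rw [h2]
    refine h2'.symm.trans ?_
    have h3 : ∀ l, ∑' s, (1 / 2 : ℂ) ^ l * ee (κ l) s * chi (κ m) s =
        (1 / 2 : ℂ) ^ l * hat (κ m) (ee (κ l)) := by
      intro l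
      rw [hat, ← tsum_mul_left]
      exact tsum_congr fun s => mul_assoc _ _ _
    simp_rw [h3]
    rw [tsum_eq_single m]
    · rw [hat_ee_self, mul_one]
    · intro l hl
      rw [hat_ee_ne (fun hk => hl (hκ hk)), mul_zero]
  -- contradiction
  obtain ⟨ν, hν, hh⟩ := hgen h hJ
  set C : ℝ := ∑ i, ∑' s, ‖ν i s‖ with hC
  have hbound : ∀ m, (1 / 2 : ℝ) ^ m ≤ C * (1 / 4) ^ m := by
    intro m
    have h1 : hat (κ m) h = ∑ i, hat (κ m) (ν i) * hat (κ m) (μ i) := by
      have h2 : hat (κ m) h = ∑ i, hat (κ m) (conv (ν i) (μ i)) := by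
        rw [hh]
        simp only [hat, Finset.sum_apply, Finset.sum_mul]
        exact Summable.tsum_finsetSum fun i _ =>
          summable_hat (κ m) (isM_conv (hν i) (hμ i).1)
      rw [h2]
      exact Finset.sum_congr rfl fun i _ => hat_conv (κ m) (hν i) (hμ i).1
    have h3 : ‖hat (κ m) h‖ = (1 / 2 : ℝ) ^ m := by
      rw [hhat, norm_pow]
      simp
    rw [← h3, h1]
    refine (norm_sum_le _ _).trans ?_
    have h4 : ∀ i, ‖hat (κ m) (ν i)‖ ≤ C := fun i =>
      (norm_hat_le (κ m) (hν i)).trans (Finset.single_le_sum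
        (f := fun i => ∑' s, ‖ν i s‖) (fun _ _ => tsum_nonneg fun _ => norm_nonneg _)
        (Finset.mem_univ i))
    have hC0 : 0 ≤ C := Finset.sum_nonneg fun _ _ => tsum_nonneg fun _ => norm_nonneg _
    calc ∑ i, ‖hat (κ m) (ν i) * hat (κ m) (μ i)‖ ≤ ∑ i, C * ‖hat (κ m) (μ i)‖ := by
          refine Finset.sum_le_sum fun i _ => ?_
          rw [norm_mul]
          exact mul_le_mul_of_nonneg_right (h4 i) (norm_nonneg _)
      _ = C * ∑ i, ‖hat (κ m) (μ i)‖ := by rw [Finset.mul_sum]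
      _ ≤ C * (1 / 4) ^ m := mul_le_mul_of_nonneg_left (hκF m) hC0
  obtain ⟨m, hm⟩ := pow_unbounded_of_one_lt C (show (1 : ℝ) < 2 by norm_num)
  have h1 := hbound m
  have h2 : (1 / 4 : ℝ) ^ m = (1 / 2) ^ m * (1 / 2) ^ m := by
    rw [← mul_pow]
    norm_num
  rw [h2, ← mul_assoc] at h1
  have h3 : (0 : ℝ) < (1 / 2) ^ m := by positivity
  have h4 : 1 ≤ C * (1 / 2) ^ m := by
    by_contra hcon
    push Not at hcon
    nlinarith
  have h5 : (2 : ℝ) ^ m * (1 / 2) ^ m = 1 := by
    rw [← mul_pow]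
    norm_num
  nlinarith

/-- In the measure algebra of the discrete group `⊕ ℤ / 2` there is a weak*-closed ideal which is
not finitely generated. -/
theorem result : ∃ J : Set ((ℕ →₀ ZMod 2) → ℂ), IsLeftIdeal J ∧ WeakStarClosed J ∧ ¬ FinGen J :=
  ⟨JJ, isLeftIdeal_JJ, weakStarClosed_JJ, not_finGen_JJ⟩

end Pool.Agent.Results.MP_6afee3_an.NotFinGen
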